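import Pool.Agent.H870R4.Noz.Stmts

/-!
Task HJ2 of the project H870-NOZ: the payoff is stationary to second order at critical paths.
-/

set_option autoImplicit false

open MeasureTheory Set
open scoped ContDiff

namespace H870N

theorem HJ2_taylor (f : E2 → ℝ) (hf : ContDiff ℝ ∞ f) (hc : HasCompactSupport f) :
    ∃ M : ℝ, 0 ≤ M ∧
      ∀ x y : E2, |f y - f x - inner ℝ (gradient f x) (y - x)| ≤ M * ‖y - x‖ ^ 2 := by
  have h1 : ContDiff ℝ 1 (fderiv ℝ f) := hf.fderiv_right (m := 1) (by decide +revert)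
  have h2 : HasCompactSupport (fderiv ℝ f) := hc.fderiv ℝ
  obtain ⟨M, hM⟩ := ContDiff.lipschitzWith_of_hasCompactSupport h2 h1 (by norm_num)
  refine ⟨M, M.coe_nonneg, fun x y => ?_⟩
  have h3 := (convex_closedBall x ‖y - x‖).norm_image_sub_le_of_norm_fderiv_le' (𝕜 := ℝ) (f := f)
    (φ := fderiv ℝ f x) (C := M * ‖y - x‖) (x := x) (y := y)
    (fun z _ => (hf.differentiable (by simp)).differentiableAt)
    (fun z hz => by
      have h4 := hM.dist_le_mul z x
      rw [dist_eq_norm, dist_eq_norm] at h4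
      refine h4.trans (mul_le_mul_of_nonneg_left ?_ M.coe_nonneg)
      simpa [dist_eq_norm] using hz)
    (by simp) (by simp [dist_eq_norm])
  rw [Real.norm_eq_abs] at h3
  have h5 : inner ℝ (gradient f x) (y - x) = fderiv ℝ f x (y - x) := by
    unfold gradient
    rw [InnerProductSpace.toDual_symm_apply]
  rw [h5]
  calc _ ≤ _ := h3
    _ = _ := by ring

theorem HJ2_intc (g : ℝ → E2) (hg : Continuous g) :
    ∀ σ, HasDerivAt (fun σ => ∫ τ in σ..(1 : ℝ), g τ) (-(g σ)) σ := fun _ =>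
  intervalIntegral.integral_hasDerivAt_left (hg.intervalIntegrable _ _)
    (hg.stronglyMeasurableAtFilter _ _) hg.continuousAt

theorem HJ2_path (t : ℝ) (x : E2) (g : ℝ → E2) (hg : Continuous g) : Continuous (path t x g) := by
  have hc : Continuous (fun σ => ∫ τ in σ..(1 : ℝ), g τ) :=
    continuous_iff_continuousAt.2 fun σ => (HJ2_intc g hg σ).continuousAt
  unfold path
  exact continuous_const.sub (hc.const_smul t)

theorem taskHJ2 : TaskHJ2 := by
  intro Q p0 hQ hp0 hQc hp0c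
  obtain ⟨M, hM0, hM⟩ := HJ2_taylor Q hQ hQc
  obtain ⟨N, hN0, hN⟩ := HJ2_taylor p0 hp0 hp0c
  refine ⟨N + (1 / 2 + M), ?_⟩
  intro t ht x h h' hh hh' hEL η hη
  have hη0 : 0 ≤ η := le_trans (norm_nonneg _) (hη 0 (by constructor <;> norm_num))
  have ht1 : |t| ≤ 1 := abs_le.2 ht
  have hkc : Continuous (fun σ => h' σ - h σ) := hh'.sub hh
  obtain ⟨k, hk⟩ : ∃ k : ℝ → E2, k = fun σ => h' σ - h σ := ⟨_, rfl⟩
  rw [← hk] at hkc
  have hkη : ∀ σ ∈ Icc (0 : ℝ) 1, ‖k σ‖ ≤ η := by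
    intro σ hσ
    rw [hk]
    exact hη σ hσ
  have hh'k : ∀ σ, h' σ = h σ + k σ := by
    intro σ
    rw [hk]
    simp
  obtain ⟨K, hK⟩ : ∃ K : ℝ → E2, K = fun σ => ∫ τ in σ..(1 : ℝ), k τ := ⟨_, rfl⟩
  have hKd : ∀ σ, HasDerivAt K (-(k σ)) σ := by
    rw [hK]
    exact HJ2_intc k hkc
  have hKc : Continuous K := continuous_iff_continuousAt.2 fun σ => (hKd σ).continuousAt
  have hK1 : K 1 = 0 := by rw [hK]; simp
  have hgQ : Continuous (gradient Q) := by
    unfold gradient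
    exact (LinearIsometryEquiv.continuous _).comp (hQ.continuous_fderiv (by simp))
  obtain ⟨q, hq⟩ : ∃ q : ℝ → E2, q = fun σ => gradient Q (path t x h σ) := ⟨_, rfl⟩
  have hqc : Continuous q := by
    rw [hq]
    exact hgQ.comp (HJ2_path t x h hh)
  obtain ⟨G, hG⟩ : ∃ G : ℝ → E2, G = fun σ => ∫ τ in (0 : ℝ)..σ, q τ := ⟨_, rfl⟩
  have hGd : ∀ σ, HasDerivAt G (q σ) σ := by
    intro σ
    rw [hG]
    exact intervalIntegral.integral_hasDerivAt_right (hqc.intervalIntegrable _ _)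
      (hqc.stronglyMeasurableAtFilter _ _) hqc.continuousAt
  have hGc : Continuous G := continuous_iff_continuousAt.2 fun σ => (hGd σ).continuousAt
  have hG0 : G 0 = 0 := by rw [hG]; simp
  have hpath : ∀ σ, path t x h' σ = path t x h σ - t • K σ := by
    intro σ
    have : K σ = (∫ τ in σ..(1 : ℝ), h' τ) - ∫ τ in σ..(1 : ℝ), h τ := by
      rw [hK, hk]
      exact intervalIntegral.integral_sub (hh'.intervalIntegrable _ _) (hh.intervalIntegrable _ _)
    rw [this]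
    unfold path
    rw [smul_sub]
    abel
  have hKb : ∀ σ ∈ Icc (0 : ℝ) 1, ‖K σ‖ ≤ η := by
    intro σ hσ
    rw [hK]
    have := intervalIntegral.norm_integral_le_of_norm_le_const (a := σ) (b := 1) (f := k) (C := η)
      (fun τ hτ => hkη τ (by
        rw [uIoc_of_le hσ.2] at hτ
        exact ⟨hσ.1.trans hτ.1.le, hτ.2⟩))
    refine this.trans ?_
    have h1 : |1 - σ| ≤ 1 := abs_le.2 ⟨by linarith [hσ.2], by linarith [hσ.1]⟩
    calc η * |1 - σ| ≤ η * 1 := mul_le_mul_of_nonneg_left h1 hη0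
      _ = η := mul_one _
  have htK : ∀ σ ∈ Icc (0 : ℝ) 1, ‖-(t • K σ)‖ ^ 2 ≤ η ^ 2 := by
    intro σ hσ
    apply pow_le_pow_left₀ (norm_nonneg _)
    rw [norm_neg, norm_smul, Real.norm_eq_abs]
    calc |t| * ‖K σ‖ ≤ 1 * η := mul_le_mul ht1 (hKb σ hσ) (norm_nonneg _) zero_le_one
      _ = η := one_mul _
  obtain ⟨P, hP⟩ : ∃ P : E2, P = gradient p0 (path t x h 0) := ⟨_, rfl⟩
  have hEL' : ∀ σ ∈ Icc (0 : ℝ) 1, h σ = -P + t • G σ := by
    intro σ hσ
    rw [hEL σ hσ, hP, hG, hq]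
    rfl
  obtain ⟨F', hF'⟩ : ∃ F' : ℝ → ℝ, F' = fun σ => inner ℝ P (-(k σ)) -
    t * (inner ℝ (G σ) (-(k σ)) + inner ℝ (q σ) (K σ)) := ⟨_, rfl⟩
  have hF'c : Continuous F' := by
    rw [hF']
    fun_prop
  have hFd : ∀ σ, HasDerivAt (fun σ => inner ℝ P (K σ) - t * inner ℝ (G σ) (K σ)) (F' σ) σ := by
    intro σ
    have h1 : HasDerivAt (fun σ => inner ℝ P (K σ)) (inner ℝ P (-(k σ))) σ := by
      have := (hasDerivAt_const σ P).inner ℝ (hKd σ)
      simpa using this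
    have h2 : HasDerivAt (fun σ => inner ℝ (G σ) (K σ))
      (inner ℝ (G σ) (-(k σ)) + inner ℝ (q σ) (K σ)) σ := (hGd σ).inner ℝ (hKd σ)
    rw [hF']
    exact h1.sub (h2.const_mul t)
  have hFint : ∫ σ in (0 : ℝ)..1, F' σ = - inner ℝ P (K 0) := by
    rw [intervalIntegral.integral_eq_sub_of_hasDerivAt (fun σ _ => hFd σ)
      (hF'c.intervalIntegrable _ _)]
    rw [hK1, hG0]
    simp
  have hF'v : ∀ σ ∈ Icc (0 : ℝ) 1, F' σ = inner ℝ (h σ) (k σ) - t * inner ℝ (q σ) (K σ) := by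
    intro σ hσ
    rw [hF', hEL' σ hσ]
    simp only [inner_neg_right, inner_add_left, inner_neg_left, real_inner_smul_left]
    ring
  -- remainder
  obtain ⟨E, hE⟩ : ∃ E : ℝ → ℝ, E = fun σ => ((1 / 2 * ‖h' σ‖ ^ 2 + Q (path t x h' σ)) -
    (1 / 2 * ‖h σ‖ ^ 2 + Q (path t x h σ))) - F' σ := ⟨_, rfl⟩
  have hA' : Continuous (fun σ => 1 / 2 * ‖h' σ‖ ^ 2 + Q (path t x h' σ)) := by
    have := hQ.continuous.comp (HJ2_path t x h' hh')
    exact (continuous_const.mul (hh'.norm.pow 2)).add this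
  have hA : Continuous (fun σ => 1 / 2 * ‖h σ‖ ^ 2 + Q (path t x h σ)) := by
    have := hQ.continuous.comp (HJ2_path t x h hh)
    exact (continuous_const.mul (hh.norm.pow 2)).add this
  have hEb : ∀ σ ∈ Icc (0 : ℝ) 1, |E σ| ≤ (1 / 2 + M) * η ^ 2 := by
    intro σ hσ
    have h1 : E σ = 1 / 2 * ‖k σ‖ ^ 2 +
        (Q (path t x h' σ) - Q (path t x h σ) - inner ℝ (q σ) (-(t • K σ))) := by
      rw [hE]
      simp only
      rw [hF'v σ hσ, hh'k σ, norm_add_sq_real, inner_neg_right, real_inner_smul_right]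
      ring
    have h2 : |Q (path t x h' σ) - Q (path t x h σ) - inner ℝ (q σ) (-(t • K σ))| ≤ M * η ^ 2 := by
      have h3 := hM (path t x h σ) (path t x h' σ)
      have h4 : path t x h' σ - path t x h σ = -(t • K σ) := by
        rw [hpath]; abel
      rw [h4] at h3
      rw [hq]
      exact h3.trans (mul_le_mul_of_nonneg_left (htK σ hσ) hM0)
    have h5 : |1 / 2 * ‖k σ‖ ^ 2| ≤ 1 / 2 * η ^ 2 := by
      rw [abs_of_nonneg (by positivity)]
      have := pow_le_pow_left₀ (norm_nonneg _) (hkη σ hσ) 2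
      linarith
    rw [h1]
    calc _ ≤ _ := abs_add_le _ _
      _ ≤ 1 / 2 * η ^ 2 + M * η ^ 2 := add_le_add h5 h2
      _ = _ := by ring
  have hEint : |∫ σ in (0 : ℝ)..1, E σ| ≤ (1 / 2 + M) * η ^ 2 := by
    have := intervalIntegral.norm_integral_le_of_norm_le_const (a := 0) (b := 1) (f := E)
      (C := (1 / 2 + M) * η ^ 2) (fun τ hτ => by
        rw [uIoc_of_le zero_le_one] at hτ
        rw [Real.norm_eq_abs]
        exact hEb τ ⟨hτ.1.le, hτ.2⟩)
    rw [Real.norm_eq_abs] at this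
    simpa using this
  have hAA : Continuous (fun σ => (1 / 2 * ‖h' σ‖ ^ 2 + Q (path t x h' σ)) -
      (1 / 2 * ‖h σ‖ ^ 2 + Q (path t x h σ))) := hA'.sub hA
  have hEsum : (∫ σ in (0 : ℝ)..1, E σ) =
      ((∫ σ in (0 : ℝ)..1, (1 / 2 * ‖h' σ‖ ^ 2 + Q (path t x h' σ))) -
        ∫ σ in (0 : ℝ)..1, (1 / 2 * ‖h σ‖ ^ 2 + Q (path t x h σ))) - - inner ℝ P (K 0) := by
    rw [← hFint, ← intervalIntegral.integral_sub (hA'.intervalIntegrable _ _)
      (hA.intervalIntegrable _ _), ← intervalIntegral.integral_sub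
      (hAA.intervalIntegrable _ _) (hF'c.intervalIntegrable _ _), hE]
  have hR0 : |p0 (path t x h' 0) - p0 (path t x h 0) - inner ℝ P (-(t • K 0))| ≤ N * η ^ 2 := by
    have h3 := hN (path t x h 0) (path t x h' 0)
    have h4 : path t x h' 0 - path t x h 0 = -(t • K 0) := by
      rw [hpath]; abel
    rw [h4] at h3
    rw [hP]
    exact h3.trans (mul_le_mul_of_nonneg_left (htK 0 (by constructor <;> norm_num)) hN0)
  have hfin : Jf Q p0 t x h' - Jf Q p0 t x h =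
      (p0 (path t x h' 0) - p0 (path t x h 0) - inner ℝ P (-(t • K 0))) -
        t * ∫ σ in (0 : ℝ)..1, E σ := by
    unfold Jf
    rw [hEsum, inner_neg_right, real_inner_smul_right]
    ring
  rw [hfin]
  have htE : |t * ∫ σ in (0 : ℝ)..1, E σ| ≤ (1 / 2 + M) * η ^ 2 := by
    rw [abs_mul]
    calc |t| * |∫ σ in (0 : ℝ)..1, E σ| ≤ 1 * ((1 / 2 + M) * η ^ 2) :=
          mul_le_mul ht1 hEint (abs_nonneg _) zero_le_one
      _ = _ := one_mul _
  calc _ ≤ _ := abs_sub _ _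
    _ ≤ N * η ^ 2 + (1 / 2 + M) * η ^ 2 := add_le_add hR0 htE
    _ = _ := by ring

end H870N
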